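import Pool.Agent.Helper98.HR2.SmGam

/-!
MP_16b0ee, project HR2: the region of small exponents (smaller region). The form `Q` and the lower
bound of the area form: `hQ` of `core_small14`.
-/

set_option autoImplicit false

open scoped ComplexConjugate

namespace Pool.Agent.Helper98.HR2

open Pool.Agent.Helper24.HR2
open Pool.Agent.Helper24.HR2.SmallCert (TT l0 l1 l2 linF_eq gamF_eq)

/-- the coefficient of the second Legendre component -/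
noncomputable def qa (s : ℂ) : ℝ := 621 / 500 + 5 / 4 * s.re

/-- the entry `(0, 0)` -/
noncomputable def Qa00 (s : ℂ) : ℝ := -579 / 5000 + 5 / 8 * s.re + qa s / 4 + 99 / 320

/-- the entry `(1, 0)` -/
noncomputable def Qa10 (s : ℂ) : ℂ := -(15 / 4) * conj s - ((3 * qa s + 99 / 8 : ℝ) : ℂ)

/-- the entry `(1, 1)` -/
noncomputable def Qa11 (s : ℂ) : ℝ := 36 * qa s + 495

/-- the Hermitian form -/
noncomputable def QA (s : ℂ) (b : ℝ) : ℕ → ℕ → ℂ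
  | 0, 0 => (Qa00 s : ℂ)
  | 1, 0 => Qa10 s
  | 0, 1 => conj (Qa10 s)
  | 1, 1 => ((Qa11 s * ((b + 3) / 3) : ℝ) : ℂ)
  | 0, 2 => ((231 / 4 * ((b + 3) * (b + 4) / 12) : ℝ) : ℂ)
  | 2, 0 => ((231 / 4 * ((b + 3) * (b + 4) / 12) : ℝ) : ℂ)
  | 1, 2 => ((-2310 * ((b + 3) * (b + 4) * (b + 5) / 60) : ℝ) : ℂ)
  | 2, 1 => ((-2310 * ((b + 3) * (b + 4) * (b + 5) / 60) : ℝ) : ℂ)
  | 2, 2 => ((10780 * ((b + 3) * (b + 4) * (b + 5) * (b + 6) * (b + 7) / 2520) : ℝ) : ℂ)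
  | _, _ => 0

/-- corrections from the dependence on `b` -/
noncomputable def k11 (s : ℂ) (b : ℝ) : ℝ := Qa11 s * (b / 3)

/-- corrections from the dependence on `b` -/
noncomputable def k02 (b : ℝ) : ℝ := 231 / 4 * ((7 * b + b ^ 2) / 12)

/-- corrections from the dependence on `b` -/
noncomputable def k12 (b : ℝ) : ℝ := -2310 * ((47 * b + 12 * b ^ 2 + b ^ 3) / 60)

/-- corrections from the dependence on `b` -/
noncomputable def k22 (b : ℝ) : ℝ :=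
  10780 * ((2754 * b + 1175 * b ^ 2 + 245 * b ^ 3 + 25 * b ^ 4 + b ^ 5) / 2520)

/-- the form in the basis of Legendre polynomials -/
theorem hF_eq (s : ℂ) (b : ℝ) (g : ℕ → ℂ) : hF 3 (QA s b) g
    = (-579 / 5000 + (k11 s b / 144 + k02 b / 40 + k12 b / 480 + k22 b / 6400)) * ‖l0 g‖ ^ 2
      + (qa s + (k11 s b / 36 + k12 b / 84 + k22 b / 784)) * ‖l1 g‖ ^ 2
      + (11 / 5 + k22 b / 4900) * ‖l2 g‖ ^ 2
      + ((-(5 / 4) * conj s + ((k11 s b / 36 + k02 b / 14 + 17 / 1680 * k12 b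
          + k22 b / 1120 : ℝ) : ℂ)) * (l0 g * conj (l1 g))).re
      + (k02 b / 35 + k12 b / 420 + k22 b / 2800) * (l0 g * conj (l2 g)).re
      + (k12 b / 210 + k22 b / 980) * (l1 g * conj (l2 g)).re := by
  unfold hF
  simp only [Finset.sum_range_succ, Finset.sum_range_zero, QA, Qa00, Qa10, Qa11, k11, k02, k12,
    k22, l0, l1, l2]
  generalize qa s = q
  generalize g 0 = u
  generalize g 1 = v
  generalize g 2 = w
  obtain ⟨x0, y0⟩ := u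
  obtain ⟨x1, y1⟩ := v
  obtain ⟨x2, y2⟩ := w
  obtain ⟨σ, τ⟩ := s
  simp only [Complex.sq_norm, Complex.normSq_apply, map_add, map_sub, map_mul, map_div₀, map_neg,
    map_ofNat, Complex.conj_ofReal, Complex.conj_conj]
  simp only [Complex.add_re, Complex.add_im, Complex.sub_re, Complex.sub_im, Complex.mul_re,
    Complex.mul_im, Complex.conj_re, Complex.conj_im, Complex.neg_re, Complex.neg_im,
    Complex.div_ofNat_re, Complex.div_ofNat_im, Complex.re_ofNat, Complex.im_ofNat,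
    Complex.ofReal_re, Complex.ofReal_im]
  ring

/-- the difference of the two forms -/
theorem D_form (t : ℝ) (s u2 u3 u4 L0 L1 L2 : ℂ) (e10 e20 e11 e21 e22 c00 c11 c22 c10 c20 c21 : ℝ) :
    (1 - 20 * t) * (2 * (1 / 4 * (L0 * conj L0) + 5 / 8 * (s + u2) * (L0 * conj L1)
      + (5 / 4 + 15 / 8 * s + 5 / 8 * u2) * (L1 * conj L1)
      + (s / 4 + 11 / 16 * u2 + 7 / 8 * u3 + 7 / 16 * u4) * (L0 * conj L2)
      + (35 / 16 * s + 155 / 32 * u2 + 55 / 16 * u3 + 25 / 32 * u4) * (L1 * conj L2)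
      + (9 / 4 + 75 / 16 * s + 105 / 32 * u2 + 15 / 16 * u3 + 3 / 32 * u4)
        * (L2 * conj L2)).re
      - (1 / 4 * ‖L0‖ ^ 2 + (5 / 4 + 5 / 2 * s.re + e11) * ‖L1‖ ^ 2
        + (9 / 4 + 9 / 2 * s.re + e22) * ‖L2‖ ^ 2
        + 2 * (5 / 4 * s.re + e10) * (L0 * conj L1).re
        + 2 * (1 / 2 * s.re + e20) * (L0 * conj L2).re
        + 2 * (35 / 8 * s.re + e21) * (L1 * conj L2).re))
      - 731 / 1000 / 2 * (1 + 20 * t) * ‖L0‖ ^ 2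
      - ((-579 / 5000 + c00) * ‖L0‖ ^ 2 + (621 / 500 + 5 / 4 * s.re + c11) * ‖L1‖ ^ 2
        + (11 / 5 + c22) * ‖L2‖ ^ 2
        + ((-(5 / 4) * conj s + (c10 : ℂ)) * (L0 * conj L1)).re
        + c20 * (L0 * conj L2).re + c21 * (L1 * conj L2).re)
      = (3 / 10000 - 1231 / 100 * t - c00) * ‖L0‖ ^ 2
        + ((1 - 20 * t) * (5 / 4 + 5 / 4 * s.re + 5 / 4 * u2.re - e11)
          - (621 / 500 + 5 / 4 * s.re) - c11) * ‖L1‖ ^ 2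
        + ((1 - 20 * t) * (9 / 4 + 39 / 8 * s.re + 105 / 16 * u2.re + 15 / 8 * u3.re
          + 3 / 16 * u4.re - e22) - 11 / 5 - c22) * ‖L2‖ ^ 2
        + ((5 / 4 * u2 - ((2 * e10 : ℝ) : ℂ) - ((20 * t : ℝ) : ℂ) * (5 / 4 * u2 - 5 / 4 * conj s
          - ((2 * e10 : ℝ) : ℂ)) - (c10 : ℂ)) * (L0 * conj L1)).re
        + ((((1 - 20 * t : ℝ) : ℂ) * (-(1 / 2) * conj s + 11 / 8 * u2 + 7 / 4 * u3 + 7 / 8 * u4
          - ((2 * e20 : ℝ) : ℂ)) - (c20 : ℂ)) * (L0 * conj L2)).re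
        + ((((1 - 20 * t : ℝ) : ℂ) * (-(35 / 8) * conj s + 155 / 16 * u2 + 55 / 8 * u3
          + 25 / 16 * u4 - ((2 * e21 : ℝ) : ℂ)) - (c21 : ℂ)) * (L1 * conj L2)).re := by
  obtain ⟨x0, y0⟩ := L0
  obtain ⟨x1, y1⟩ := L1
  obtain ⟨x2, y2⟩ := L2
  obtain ⟨σ, τ⟩ := s
  obtain ⟨p2, r2⟩ := u2
  obtain ⟨p3, r3⟩ := u3
  obtain ⟨p4, r4⟩ := u4
  simp only [Complex.sq_norm, Complex.normSq_apply]
  simp only [Complex.add_re, Complex.add_im, Complex.sub_re, Complex.sub_im, Complex.mul_re,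
    Complex.mul_im, Complex.conj_re, Complex.conj_im, Complex.neg_re, Complex.neg_im,
    Complex.div_ofNat_re, Complex.div_ofNat_im, Complex.re_ofNat, Complex.im_ofNat,
    Complex.ofReal_re, Complex.ofReal_im, Complex.one_re, Complex.one_im]
  ring

theorem re_ge {z P : ℂ} {B N : ℝ} (hz : ‖z‖ ≤ B) (hP : ‖P‖ = N) : -(B * N) ≤ (z * P).re := by
  have h1 : |(z * P).re| ≤ B * N := by
    refine (Complex.abs_re_le_norm _).trans ?_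
    rw [norm_mul, hP]
    exact mul_le_mul_of_nonneg_right hz (hP ▸ norm_nonneg _)
  exact (abs_le.mp h1).1

theorem nbm {a : ℂ} {A : ℝ} (c : ℝ) (hc : 0 ≤ c) (ha : ‖a‖ ≤ A) : ‖(c : ℂ) * a‖ ≤ c * A := by
  rw [norm_mul, Complex.norm_real, Real.norm_of_nonneg hc]
  exact mul_le_mul_of_nonneg_left ha hc

theorem bpow {b : ℝ} (hb0 : 0 ≤ b) (hb1 : b ≤ 2 / 91375) :
    (0 ≤ b ^ 2 ∧ b ^ 2 ≤ b * (2 / 91375)) ∧ (0 ≤ b ^ 3 ∧ b ^ 3 ≤ b * (2 / 91375))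
      ∧ (0 ≤ b ^ 4 ∧ b ^ 4 ≤ b * (2 / 91375)) ∧ (0 ≤ b ^ 5 ∧ b ^ 5 ≤ b * (2 / 91375)) := by
  have h2 : b ^ 2 ≤ b * (2 / 91375) := by
    have := mul_le_mul_of_nonneg_left hb1 hb0
    calc b ^ 2 = b * b := by ring
      _ ≤ _ := this
  have hs : ∀ n : ℕ, b ^ (n + 2) ≤ b ^ 2 := fun n =>
    pow_le_pow_of_le_one hb0 (by linarith) (by omega)
  exact ⟨⟨by positivity, h2⟩, ⟨by positivity, (hs 1).trans h2⟩, ⟨by positivity, (hs 2).trans h2⟩,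
    ⟨by positivity, (hs 3).trans h2⟩⟩

theorem corr {s : ℂ} {b : ℝ} (hre : |s.re| ≤ 1 / 250) (hb0 : 0 ≤ b) (hb1 : b ≤ 2 / 91375) :
    k11 s b / 144 + k02 b / 40 + k12 b / 480 + k22 b / 6400 ≤ 4 / 1000000
    ∧ k11 s b / 36 + k12 b / 84 + k22 b / 784 ≤ 0
    ∧ k22 b / 4900 ≤ 53 / 1000000
    ∧ |k11 s b / 36 + k02 b / 14 + 17 / 1680 * k12 b + k22 b / 1120| ≤ 9 / 1000000
    ∧ |k02 b / 35 + k12 b / 420 + k22 b / 2800| ≤ 19 / 1000000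
    ∧ |k12 b / 210 + k22 b / 980| ≤ 75 / 1000000 := by
  obtain ⟨⟨hb20, hb2⟩, ⟨hb30, hb3⟩, ⟨hb40, hb4⟩, ⟨hb50, hb5⟩⟩ := bpow hb0 hb1
  have hre' := abs_le.mp hre
  have hsb1 : s.re * b ≤ 1 / 250 * b := mul_le_mul_of_nonneg_right hre'.2 hb0
  have hsb2 : -(1 / 250) * b ≤ s.re * b := mul_le_mul_of_nonneg_right hre'.1 hb0
  unfold k11 k02 k12 k22 Qa11 qa
  refine ⟨by linarith, by linarith, by linarith, ?_, ?_, ?_⟩
  · rw [abs_le]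
    constructor <;> linarith
  · rw [abs_le]
    constructor <;> linarith
  · rw [abs_le]
    constructor <;> linarith

theorem fin3 (x y z : ℝ) : 0 ≤ 99 / 1000000 * x ^ 2 + 743 / 100000 * y ^ 2 + 293 / 10000 * z ^ 2
      - 135 / 1000000 * (x * y) - 2142 / 1000000 * (x * z) - 1827 / 100000 * (y * z) := by
  nlinarith [sq_nonneg (z - 1071 / 29300 * x - 1827 / 5860 * y), sq_nonneg (x - 8 * y),
    sq_nonneg x, sq_nonneg y]

theorem pows {s : ℂ} (hs : ‖s‖ ≤ 1 / 250) : ‖s ^ 2‖ ≤ 1 / 62500 ∧ ‖s ^ 3‖ ≤ 1 / 15625000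
    ∧ ‖s ^ 4‖ ≤ 1 / 3906250000 := by
  refine ⟨?_, ?_, ?_⟩
  · rw [norm_pow]
    calc ‖s‖ ^ 2 ≤ (1 / 250) ^ 2 := by gcongr
      _ = _ := by norm_num
  · rw [norm_pow]
    calc ‖s‖ ^ 3 ≤ (1 / 250) ^ 3 := by gcongr
      _ = _ := by norm_num
  · rw [norm_pow]
    calc ‖s‖ ^ 4 ≤ (1 / 250) ^ 4 := by gcongr
      _ = _ := by norm_num

theorem z10_le {s : ℂ} (hs : ‖s‖ ≤ 1 / 250) {t e10 c10 : ℝ} (ht0 : 0 ≤ t) (ht1 : t ≤ 1 / 62500)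
    (g10 : |e10| ≤ 13 / 250000) (hc10 : |c10| ≤ 9 / 1000000) :
    ‖5 / 4 * s ^ 2 - ((2 * e10 : ℝ) : ℂ) - ((20 * t : ℝ) : ℂ) * (5 / 4 * s ^ 2
      - 5 / 4 * conj s - ((2 * e10 : ℝ) : ℂ)) - (c10 : ℂ)‖ ≤ 135 / 1000000 := by
  have hcs : ‖conj s‖ ≤ 1 / 250 := by rw [Complex.norm_conj]; exact hs
  obtain ⟨hu2, hu3, hu4⟩ := pows hs
  have hr : ∀ (x A : ℝ), |x| ≤ A → ‖(x : ℂ)‖ ≤ A := by
    intro x A h
    rw [Complex.norm_real]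
    exact h
  have h1 : ‖(5 / 4 : ℂ) * s ^ 2‖ ≤ 5 / 4 * (1 / 62500) := by
    have := nbm (5 / 4) (by norm_num) hu2
    push_cast at this
    exact this
  have h2 : ‖(5 / 4 : ℂ) * conj s‖ ≤ 5 / 4 * (1 / 250) := by
    have := nbm (5 / 4) (by norm_num) hcs
    push_cast at this
    exact this
  have h3 : ‖((2 * e10 : ℝ) : ℂ)‖ ≤ 2 * (13 / 250000) := hr _ _ (by
    rw [abs_mul, abs_two]; linarith)
  have h4 := (norm_sub_le (5 / 4 * s ^ 2 - 5 / 4 * conj s) ((2 * e10 : ℝ) : ℂ)).trans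
    (add_le_add ((norm_sub_le _ _).trans (add_le_add h1 h2)) h3)
  have h5 := nbm (20 * t) (by positivity) h4
  have h6 : 20 * t * (5 / 4 * (1 / 62500) + 5 / 4 * (1 / 250) + 2 * (13 / 250000))
      ≤ 20 * (1 / 62500) * (5 / 4 * (1 / 62500) + 5 / 4 * (1 / 250) + 2 * (13 / 250000)) := by
    gcongr
  have h7 := (norm_sub_le (5 / 4 * s ^ 2 - ((2 * e10 : ℝ) : ℂ) - ((20 * t : ℝ) : ℂ)
    * (5 / 4 * s ^ 2 - 5 / 4 * conj s - ((2 * e10 : ℝ) : ℂ))) (c10 : ℂ)).trans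
    (add_le_add ((norm_sub_le _ _).trans (add_le_add ((norm_sub_le _ _).trans
      (add_le_add h1 h3)) (h5.trans h6))) (hr _ _ hc10))
  refine h7.trans ?_
  norm_num

theorem z20_le {s : ℂ} (hs : ‖s‖ ≤ 1 / 250) {t e20 c20 : ℝ} (ht0 : 0 ≤ t) (ht1 : t ≤ 1 / 62500)
    (g20 : |e20| ≤ 1 / 20000) (hc20 : |c20| ≤ 19 / 1000000) :
    ‖((1 - 20 * t : ℝ) : ℂ) * (-(1 / 2) * conj s + 11 / 8 * s ^ 2 + 7 / 4 * s ^ 3
      + 7 / 8 * s ^ 4 - ((2 * e20 : ℝ) : ℂ)) - (c20 : ℂ)‖ ≤ 2142 / 1000000 := by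
  have hcs : ‖conj s‖ ≤ 1 / 250 := by rw [Complex.norm_conj]; exact hs
  obtain ⟨hu2, hu3, hu4⟩ := pows hs
  have hr : ∀ (x A : ℝ), |x| ≤ A → ‖(x : ℂ)‖ ≤ A := by
    intro x A h
    rw [Complex.norm_real]
    exact h
  have h1 : ‖-(1 / 2 : ℂ) * conj s‖ ≤ 1 / 2 * (1 / 250) := by
    have := nbm (1 / 2) (by norm_num) hcs
    push_cast at this
    rw [neg_mul, norm_neg]
    exact this
  have h2 : ‖(11 / 8 : ℂ) * s ^ 2‖ ≤ 11 / 8 * (1 / 62500) := by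
    have := nbm (11 / 8) (by norm_num) hu2
    push_cast at this
    exact this
  have h3 : ‖(7 / 4 : ℂ) * s ^ 3‖ ≤ 7 / 4 * (1 / 15625000) := by
    have := nbm (7 / 4) (by norm_num) hu3
    push_cast at this
    exact this
  have h4 : ‖(7 / 8 : ℂ) * s ^ 4‖ ≤ 7 / 8 * (1 / 3906250000) := by
    have := nbm (7 / 8) (by norm_num) hu4
    push_cast at this
    exact this
  have h5 : ‖((2 * e20 : ℝ) : ℂ)‖ ≤ 2 * (1 / 20000) := hr _ _ (by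
    rw [abs_mul, abs_two]; linarith)
  have h6 := (norm_sub_le (-(1 / 2) * conj s + 11 / 8 * s ^ 2 + 7 / 4 * s ^ 3
    + 7 / 8 * s ^ 4) ((2 * e20 : ℝ) : ℂ)).trans (add_le_add ((norm_add_le _ _).trans
      (add_le_add ((norm_add_le _ _).trans (add_le_add ((norm_add_le _ _).trans
        (add_le_add h1 h2)) h3)) h4)) h5)
  have h7 := (nbm (1 - 20 * t) (by linarith) h6).trans
    (mul_le_of_le_one_left (by norm_num) (by linarith))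
  have h8 := (norm_sub_le _ (c20 : ℂ)).trans (add_le_add h7 (hr _ _ hc20))
  refine h8.trans ?_
  norm_num

theorem z21_le {s : ℂ} (hs : ‖s‖ ≤ 1 / 250) {t e21 c21 : ℝ} (ht0 : 0 ≤ t) (ht1 : t ≤ 1 / 62500)
    (g21 : |e21| ≤ 53 / 200000) (hc21 : |c21| ≤ 75 / 1000000) :
    ‖((1 - 20 * t : ℝ) : ℂ) * (-(35 / 8) * conj s + 155 / 16 * s ^ 2 + 55 / 8 * s ^ 3
      + 25 / 16 * s ^ 4 - ((2 * e21 : ℝ) : ℂ)) - (c21 : ℂ)‖ ≤ 1827 / 100000 := by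
  have hcs : ‖conj s‖ ≤ 1 / 250 := by rw [Complex.norm_conj]; exact hs
  obtain ⟨hu2, hu3, hu4⟩ := pows hs
  have hr : ∀ (x A : ℝ), |x| ≤ A → ‖(x : ℂ)‖ ≤ A := by
    intro x A h
    rw [Complex.norm_real]
    exact h
  have h1 : ‖-(35 / 8 : ℂ) * conj s‖ ≤ 35 / 8 * (1 / 250) := by
    have := nbm (35 / 8) (by norm_num) hcs
    push_cast at this
    rw [neg_mul, norm_neg]
    exact this
  have h2 : ‖(155 / 16 : ℂ) * s ^ 2‖ ≤ 155 / 16 * (1 / 62500) := by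
    have := nbm (155 / 16) (by norm_num) hu2
    push_cast at this
    exact this
  have h3 : ‖(55 / 8 : ℂ) * s ^ 3‖ ≤ 55 / 8 * (1 / 15625000) := by
    have := nbm (55 / 8) (by norm_num) hu3
    push_cast at this
    exact this
  have h4 : ‖(25 / 16 : ℂ) * s ^ 4‖ ≤ 25 / 16 * (1 / 3906250000) := by
    have := nbm (25 / 16) (by norm_num) hu4
    push_cast at this
    exact this
  have h5 : ‖((2 * e21 : ℝ) : ℂ)‖ ≤ 2 * (53 / 200000) := hr _ _ (by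
    rw [abs_mul, abs_two]; linarith)
  have h6 := (norm_sub_le (-(35 / 8) * conj s + 155 / 16 * s ^ 2 + 55 / 8 * s ^ 3
    + 25 / 16 * s ^ 4) ((2 * e21 : ℝ) : ℂ)).trans (add_le_add ((norm_add_le _ _).trans
      (add_le_add ((norm_add_le _ _).trans (add_le_add ((norm_add_le _ _).trans
        (add_le_add h1 h2)) h3)) h4)) h5)
  have h7 := (nbm (1 - 20 * t) (by linarith) h6).trans
    (mul_le_of_le_one_left (by norm_num) (by linarith))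
  have h8 := (norm_sub_le _ (c21 : ℂ)).trans (add_le_add h7 (hr _ _ hc21))
  refine h8.trans ?_
  norm_num

theorem diag {s : ℂ} (hs : ‖s‖ ≤ 1 / 250) {t e11 e22 c00 c11 c22 : ℝ} (ht0 : 0 ≤ t)
    (ht1 : t ≤ 1 / 62500) (g11 : |e11| ≤ 29 / 200000) (g22 : |e22| ≤ 313 / 1000000)
    (hc00 : c00 ≤ 4 / 1000000) (hc11 : c11 ≤ 0) (hc22 : c22 ≤ 53 / 1000000) :
    (99 / 1000000 ≤ 3 / 10000 - 1231 / 100 * t - c00) ∧ (743 / 100000 ≤ (1 - 20 * t) * (5 / 4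
      + 5 / 4 * s.re + 5 / 4 * (s ^ 2).re - e11)
      - (621 / 500 + 5 / 4 * s.re) - c11) ∧ (293 / 10000 ≤ (1 - 20 * t) * (9 / 4
      + 39 / 8 * s.re + 105 / 16 * (s ^ 2).re
      + 15 / 8 * (s ^ 3).re + 3 / 16 * (s ^ 4).re - e22) - 11 / 5 - c22) := by
  obtain ⟨hu2, hu3, hu4⟩ := pows hs
  have hre : |s.re| ≤ 1 / 250 := (Complex.abs_re_le_norm s).trans hs
  have hre' := abs_le.mp hre
  have g11' := abs_le.mp g11
  have g22' := abs_le.mp g22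
  clear g11 g22 hre
  have p2 := abs_le.mp ((Complex.abs_re_le_norm (s ^ 2)).trans hu2)
  have p3 := abs_le.mp ((Complex.abs_re_le_norm (s ^ 3)).trans hu3)
  have p4 := abs_le.mp ((Complex.abs_re_le_norm (s ^ 4)).trans hu4)
  have d0 : 99 / 1000000 ≤ 3 / 10000 - 1231 / 100 * t - c00 := by linarith
  have hF1 : 5 / 4 + 5 / 4 * s.re + 5 / 4 * (s ^ 2).re - e11 ≤ 1256 / 1000 := by linarith
  have d1 : 743 / 100000 ≤ (1 - 20 * t) * (5 / 4 + 5 / 4 * s.re + 5 / 4 * (s ^ 2).re - e11)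
      - (621 / 500 + 5 / 4 * s.re) - c11 := by
    have h1 : t * (5 / 4 + 5 / 4 * s.re + 5 / 4 * (s ^ 2).re - e11)
        ≤ (1 / 62500) * (1256 / 1000) := by
      refine (mul_le_mul_of_nonneg_left hF1 ht0).trans ?_
      exact mul_le_mul_of_nonneg_right ht1 (by norm_num)
    linarith
  have hF3 : 0 ≤ 9 / 4 + 39 / 8 * s.re + 105 / 16 * (s ^ 2).re + 15 / 8 * (s ^ 3).re
      + 3 / 16 * (s ^ 4).re - e22 := by linarith
  have d2 : 293 / 10000 ≤ (1 - 20 * t) * (9 / 4 + 39 / 8 * s.re + 105 / 16 * (s ^ 2).re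
      + 15 / 8 * (s ^ 3).re + 3 / 16 * (s ^ 4).re - e22) - 11 / 5 - c22 := by
    have h1 : t * (9 / 4 + 39 / 8 * s.re + 105 / 16 * (s ^ 2).re + 15 / 8 * (s ^ 3).re
        + 3 / 16 * (s ^ 4).re - e22) ≤ (1 / 62500) * (9 / 4 + 39 / 8 * s.re
          + 105 / 16 * (s ^ 2).re + 15 / 8 * (s ^ 3).re + 3 / 16 * (s ^ 4).re - e22) :=
      mul_le_mul_of_nonneg_right ht1 hF3
    linarith
  exact ⟨d0, d1, d2⟩

/-- **The hypothesis `hQ`.** -/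
theorem hQ_smallA {s : ℂ} (hs : ‖s‖ ≤ 1 / 250) (g : ℕ → ℂ) :
    hF 3 (QA s (‖s‖ ^ 2 / (731 / 1000))) g
      ≤ (1 - 20 * ‖s‖ ^ 2) * (linF s 3 5 g (Tg 3 TT g)
          - gamF s (‖s‖ ^ 2 / (731 / 1000)) 5 (Tg 3 TT g))
        - 731 / 1000 / 2 * (1 + 20 * ‖s‖ ^ 2) * ‖g 0‖ ^ 2 := by
  have hn := norm_nonneg s
  obtain ⟨t, ht⟩ : ∃ t, t = ‖s‖ ^ 2 := ⟨_, rfl⟩
  obtain ⟨b, hb⟩ : ∃ b, b = t / (731 / 1000) := ⟨_, rfl⟩
  have ht0 : 0 ≤ t := by rw [ht]; positivity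
  have ht1 : t ≤ 1 / 62500 := by
    rw [ht]
    calc ‖s‖ ^ 2 ≤ (1 / 250) ^ 2 := by gcongr
      _ = _ := by norm_num
  have hb0 : 0 ≤ b := by rw [hb]; positivity
  have hb1 : b ≤ 2 / 91375 := by rw [hb]; linarith
  have hre : |s.re| ≤ 1 / 250 := (Complex.abs_re_le_norm s).trans hs
  rw [← ht, ← hb]
  -- the quadratic form
  have g10 := wG10 hre hb0 hb1
  have g20 := wG20 hre hb0 hb1
  have g11 := wG11 hre hb0 hb1
  have g21 := wG21 hre hb0 hb1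
  have g22 := wG22 hre hb0 hb1
  obtain ⟨e10, he10⟩ : ∃ e, 5/4 * (1 - 6 * Gm s b 1 + 6 * Gm s b 2) = 5 / 4 * s.re + e :=
    ⟨_, (add_sub_cancel _ _).symm⟩
  obtain ⟨e20, he20⟩ : ∃ e, 9/4 * (1 - 20 * Gm s b 1 + 90 * Gm s b 2 - 140 * Gm s b 3
      + 70 * Gm s b 4) = 1 / 2 * s.re + e := ⟨_, (add_sub_cancel _ _).symm⟩
  obtain ⟨e11, he11⟩ : ∃ e, 25/4 * (1 - 12 * Gm s b 1 + 48 * Gm s b 2 - 72 * Gm s b 3
      + 36 * Gm s b 4) = 5 / 4 + 5 / 2 * s.re + e := ⟨_, (add_sub_cancel _ _).symm⟩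
  obtain ⟨e21, he21⟩ : ∃ e, 45/4 * (1 - 26 * Gm s b 1 + 216 * Gm s b 2 - 800 * Gm s b 3
      + 1450 * Gm s b 4 - 1260 * Gm s b 5 + 420 * Gm s b 6) = 35 / 8 * s.re + e :=
    ⟨_, (add_sub_cancel _ _).symm⟩
  obtain ⟨e22, he22⟩ : ∃ e, 81/4 * (1 - 40 * Gm s b 1 + 580 * Gm s b 2 - 3880 * Gm s b 3
      + 13840 * Gm s b 4 - 28000 * Gm s b 5 + 32200 * Gm s b 6 - 19600 * Gm s b 7
      + 4900 * Gm s b 8) = 9 / 4 + 9 / 2 * s.re + e := ⟨_, (add_sub_cancel _ _).symm⟩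
  rw [he10, add_sub_cancel_left] at g10
  rw [he20, add_sub_cancel_left] at g20
  rw [he11, add_sub_cancel_left] at g11
  rw [he21, add_sub_cancel_left] at g21
  rw [he22, add_sub_cancel_left] at g22
  rw [hF_eq, linF_eq, gamF_eq, he10, he20, he11, he21, he22]
  clear he10 he20 he11 he21 he22
  have hq : qa s = 621 / 500 + 5 / 4 * s.re := rfl
  have hg0 : g 0 = l0 g := rfl
  -- the corrections
  obtain ⟨hc00, hc11, hc22, hc10, hc20, hc21⟩ := corr hre hb0 hb1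
  rw [hq, hg0]
  obtain ⟨c00, hc00'⟩ : ∃ c, c = k11 s b / 144 + k02 b / 40 + k12 b / 480 + k22 b / 6400 :=
    ⟨_, rfl⟩
  obtain ⟨c11, hc11'⟩ : ∃ c, c = k11 s b / 36 + k12 b / 84 + k22 b / 784 := ⟨_, rfl⟩
  obtain ⟨c22, hc22'⟩ : ∃ c, c = k22 b / 4900 := ⟨_, rfl⟩
  obtain ⟨c10, hc10'⟩ : ∃ c, c = k11 s b / 36 + k02 b / 14 + 17 / 1680 * k12 b
    + k22 b / 1120 := ⟨_, rfl⟩
  obtain ⟨c20, hc20'⟩ : ∃ c, c = k02 b / 35 + k12 b / 420 + k22 b / 2800 := ⟨_, rfl⟩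
  obtain ⟨c21, hc21'⟩ : ∃ c, c = k12 b / 210 + k22 b / 980 := ⟨_, rfl⟩
  rw [← hc00', ← hc11', ← hc22', ← hc10', ← hc20', ← hc21']
  rw [← hc00'] at hc00
  rw [← hc11'] at hc11
  rw [← hc22'] at hc22
  rw [← hc10'] at hc10
  rw [← hc20'] at hc20
  rw [← hc21'] at hc21
  have hP : ∀ z w : ℂ, ‖z * conj w‖ = ‖z‖ * ‖w‖ := by
    intro z w
    rw [norm_mul, Complex.norm_conj]
  -- the diagonal terms
  obtain ⟨d0, d1, d2⟩ := diag hs ht0 ht1 g11 g22 hc00 hc11 hc22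
  have r10 := re_ge (z10_le hs ht0 ht1 g10 hc10) (hP (l0 g) (l1 g))
  have r20 := re_ge (z20_le hs ht0 ht1 g20 hc20) (hP (l0 g) (l2 g))
  have r21 := re_ge (z21_le hs ht0 ht1 g21 hc21) (hP (l1 g) (l2 g))
  have hfin := fin3 ‖l0 g‖ ‖l1 g‖ ‖l2 g‖
  have m0 := mul_le_mul_of_nonneg_right d0 (sq_nonneg ‖l0 g‖)
  have m1 := mul_le_mul_of_nonneg_right d1 (sq_nonneg ‖l1 g‖)
  have m2 := mul_le_mul_of_nonneg_right d2 (sq_nonneg ‖l2 g‖)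
  have hD := D_form t s (s ^ 2) (s ^ 3) (s ^ 4) (l0 g) (l1 g) (l2 g) e10 e20 e11 e21 e22
    c00 c11 c22 c10 c20 c21
  clear hP hc00' hc11' hc22' hc10' hc20' hc21' d0 d1 d2 g10 g20 g11 g21 g22 hre hc00 hc11 hc22
    hc10 hc20 hc21
  linarith

end Pool.Agent.Helper98.HR2
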