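import Mathlib
import Pool.Agent.Helper24.HR2.SmallCore

/-!
MP_16b0ee, project HR2: the region of small exponents, conclusion; the certificate is only needed
for the jets with `‖c 0‖ ≤ 14`.
-/

set_option autoImplicit false

open MeasureTheory Set Metric Filter Topology
open scoped Real ComplexConjugate

namespace Pool.Agent.Helper98.HR2

open Pool.Agent.Helper39.MH
open Pool.Agent.Helper24.HR2
open Pool.Agent.Helper24.HR2.SmallCore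

theorem cc0_le {ρ : ℝ} {β H : ℂ → ℂ} {Φ : ℂ → ℂ → ℂ} (h : Dat ρ β H Φ) {z : ℂ}
    (hz : z ∈ ball (0 : ℂ) 1) : ‖cc H z 0‖ ≤ 14 := by
  have h1 := h.bloch z hz
  have hz1 : ‖z‖ < 1 := mem_ball_zero_iff.mp hz
  have hz0 := norm_nonneg z
  have hpos : 0 ≤ 1 - ‖z‖ ^ 2 := by nlinarith
  have e : gg H 0 z = -(th H z) / 2 := by rw [gg]
  have e2 : ‖cc H z 0‖ = (1 - ‖z‖ ^ 2) * (‖z‖ * ‖deriv H z‖ / 2) := by
    unfold cc
    rw [e, norm_mul, Complex.norm_real, Real.norm_of_nonneg (by positivity), norm_div, norm_neg]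
    unfold th
    rw [norm_mul, Complex.norm_ofNat]
    simp
  rw [e2]
  have h3 : ‖z‖ * ‖deriv H z‖ ≤ 1 * ‖deriv H z‖ :=
    mul_le_mul_of_nonneg_right hz1.le (norm_nonneg _)
  have h4 := mul_le_mul_of_nonneg_left h3 hpos
  linarith

/-- the region of small exponents; the multipliers may grow like `1 / |s|^2` -/
theorem core_small14 {a : ℝ} (ha : 1 / 2 ≤ a) (ha1 : a < 1) {s0 : ℝ} (hs0 : s0 ≤ 1 / 20)
    (T Q : ℂ → ℕ → ℕ → ℂ) {CT : ℝ} (hT : ∀ s : ℂ, ‖s‖ ≤ s0 → ∀ n r, ‖T s n r‖ ≤ CT)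
    (hQb : ∀ s : ℂ, ‖s‖ ≤ s0 → ∀ r t, ‖Q s r t‖ ≤ CT)
    (hQ : ∀ s : ℂ, s ≠ 0 → ‖s‖ ≤ s0 → ∀ g : ℕ → ℂ, hF 3 (Q s) g
      ≤ (1 - 20 * ‖s‖ ^ 2) * (linF s 3 5 g (Tg 3 (T s) g)
          - gamF s (‖s‖ ^ 2 / a) 5 (Tg 3 (T s) g))
        - a / 2 * (1 + 20 * ‖s‖ ^ 2) * ‖g 0‖ ^ 2)
    (rels : List ((ℂ → ℂ) × List ℕ × List ℕ)) {CZ : ℝ}
    (hζ : ∀ x ∈ rels, ∀ s : ℂ, s ≠ 0 → ‖s‖ ≤ s0 → ‖x.1 s‖ ≤ CZ / ‖s‖ ^ 2)
    {η : ℝ} (hη : 0 < η)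
    (hc : ∀ s : ℂ, s ≠ 0 → ‖s‖ ≤ s0 → ∀ c : ℕ → ℂ, ‖c 0‖ ≤ 14 →
      η * ‖c 0‖ ^ 2 ≤ qY (Q s) s (‖s‖ ^ 2 / a) c
      + (rels.map (fun x => (x.1 s * relS s (‖s‖ ^ 2 / a) c x.2.1 x.2.2).re)).sum) :
    ∃ C : ℝ, ∀ s : ℂ, s ≠ 0 → ‖s‖ ≤ s0 → ∀ (ρ : ℝ) (β H : ℂ → ℂ) (Φ : ℂ → ℂ → ℂ),
      Dat ρ β H Φ → ‖s‖ ^ 2 / a * LS s H (‖s‖ ^ 2 / a) (fun _ => 1) ≤ C := by
  obtain ⟨C1, hC1⟩ := area_form_small ha ha1 hs0 T Q hT hQb hQ (half_pos hη)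
  obtain ⟨K0, hK0, hrel⟩ := rel_list rels
  obtain ⟨K1, hK1, hr1⟩ := rel_term [] []
  obtain ⟨K2, hK2, hr2⟩ := rel_term [] [0]
  have ha0 : 0 < a := by linarith
  refine ⟨4 * ((2 / η) * (C1 + K0 * CZ) + K1 + K2), ?_⟩
  intro s hs hss ρ β H Φ h
  have hn : 0 < ‖s‖ := norm_pos_iff.mpr hs
  have hn2 : 0 < ‖s‖ ^ 2 := by positivity
  have hs20 : ‖s‖ ≤ 1 / 20 := hss.trans hs0
  have hb0 : 0 < ‖s‖ ^ 2 / a := by positivity
  have hb1 : ‖s‖ ^ 2 / a ≤ 1 := by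
    rw [div_le_one ha0]
    nlinarith
  have hA := hC1 s hs hss ρ β H Φ h
  have hcs := hc s hs hss
  have hζs := fun x hx => hζ x hx s hs hss
  set b := ‖s‖ ^ 2 / a with hbdef
  have hH := cont_H h
  have hc0 : ContinuousOn (fun z => ‖cc H z 0‖ ^ 2) (closedBall (0 : ℂ) 1) :=
    (cont_cc h.one_lt h.diff 0).norm.pow 2
  have hqc := cont_qY h (Q s) s b
  -- integrate the certificate
  obtain ⟨hl1, hl2⟩ := LS_list (s := s) (b := b) hH hb0 rels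
    (fun x z => (x.1 s * relS s b (cc H z) x.2.1 x.2.2).re)
    (fun x _ => cont_rel h s b (x.1 s) x.2.1 x.2.2)
  have hm : LS s H b (fun z => η * ‖cc H z 0‖ ^ 2)
      ≤ LS s H b (fun z => qY (Q s) s b (cc H z)
        + (rels.map (fun x => (x.1 s * relS s b (cc H z) x.2.1 x.2.2).re)).sum) :=
    LS_mono hH hb0 (continuousOn_const.mul hc0) (hqc.add hl2)
      (fun z hz => hcs (cc H z) (cc0_le h hz))
  rw [LS_smul, LS_add hH hb0 hqc hl2, hl1] at hm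
  have hr := hrel ρ β H Φ h s b (CZ / ‖s‖ ^ 2) hb0 hb1 hs20 hζs
  have hLc : LS s H b (fun z => ‖cc H z 0‖ ^ 2) ≤ (2 / η) * (C1 + K0 * CZ) / ‖s‖ ^ 2 := by
    have h3 : η / 2 * LS s H b (fun z => ‖cc H z 0‖ ^ 2) ≤ (C1 + K0 * CZ) / ‖s‖ ^ 2 := by
      have e : (C1 + K0 * CZ) / ‖s‖ ^ 2 = C1 / ‖s‖ ^ 2 + K0 * (CZ / ‖s‖ ^ 2) := by ring
      rw [e]
      linarith
    have h4 : LS s H b (fun z => ‖cc H z 0‖ ^ 2)
        = 2 / η * (η / 2 * LS s H b (fun z => ‖cc H z 0‖ ^ 2)) := by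
      field_simp
    rw [h4, mul_div_assoc]
    exact mul_le_mul_of_nonneg_left h3 (by positivity)
  -- the relation R2
  have hk1 : LS s H b (fun z => ‖cc H z 0‖ ^ 2 + (-((b + 1) / (4 * a))) * 1)
      = LS s H b (fun z => ((((b + 1) / (4 * ‖s‖ ^ 2) : ℝ) : ℂ) * relS s b (cc H z) [] []).re
        + (-(1 / (2 * s)) * relS s b (cc H z) [] [0]).re) := by
    apply LS_congr
    intro z _
    rw [← R2_id hs ha0 hbdef (cc H z)]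
    ring
  rw [LS_add hH hb0 hc0 continuousOn_const, LS_smul,
    LS_add hH hb0 (cont_rel h s b _ _ _) (cont_rel h s b _ _ _)] at hk1
  have he1 := hr1 ρ β H Φ h s (((b + 1) / (4 * ‖s‖ ^ 2) : ℝ) : ℂ) b (1 / ‖s‖ ^ 2) hb0 hb1 hs20
    (by
      rw [Complex.norm_real, Real.norm_of_nonneg (by positivity), div_le_div_iff₀ (by positivity)
        hn2]
      nlinarith)
  have he2 := hr2 ρ β H Φ h s (-(1 / (2 * s))) b (1 / ‖s‖ ^ 2) hb0 hb1 hs20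
    (by
      rw [norm_neg, norm_div, norm_mul, norm_one, Complex.norm_ofNat,
        div_le_div_iff₀ (by positivity) hn2]
      nlinarith)
  have g1 := (abs_le.mp he1).1
  have g2 := (abs_le.mp he2).1
  have hL1 : (b + 1) / (4 * a) * LS s H b (fun _ => 1)
      ≤ ((2 / η) * (C1 + K0 * CZ) + K1 + K2) / ‖s‖ ^ 2 := by
    have e : ((2 / η) * (C1 + K0 * CZ) + K1 + K2) / ‖s‖ ^ 2
        = (2 / η) * (C1 + K0 * CZ) / ‖s‖ ^ 2 + K1 * (1 / ‖s‖ ^ 2) + K2 * (1 / ‖s‖ ^ 2) := by ring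
    rw [e]
    linarith
  have hL0 : 0 ≤ LS s H b (fun _ => 1) :=
    LS_nonneg hH hb0 continuousOn_const (fun _ _ => zero_le_one)
  have h5 : 1 / (4 * a) * LS s H b (fun _ => 1) ≤ (b + 1) / (4 * a) * LS s H b (fun _ => 1) := by
    apply mul_le_mul_of_nonneg_right _ hL0
    apply div_le_div_of_nonneg_right _ (by positivity)
    linarith
  have h6 := h5.trans hL1
  calc b * LS s H b (fun _ => 1) = 4 * ‖s‖ ^ 2 * (1 / (4 * a) * LS s H b (fun _ => 1)) := by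
        rw [hbdef]
        field_simp
    _ ≤ 4 * ‖s‖ ^ 2 * (((2 / η) * (C1 + K0 * CZ) + K1 + K2) / ‖s‖ ^ 2) :=
        mul_le_mul_of_nonneg_left h6 (by positivity)
    _ = 4 * ((2 / η) * (C1 + K0 * CZ) + K1 + K2) := by
        field_simp

end Pool.Agent.Helper98.HR2
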