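import Pool.Agent.Helper54.HR2.Sound6

/-!
MP_16b0ee, project HR2: the region of small exponents: comparison of the digits of the form with a
short list of terms.
-/

set_option autoImplicit false

namespace Pool.Agent.Helper98.HR2

open Pool.Agent.Helper12.HR2 (Mo GZ gv Pol mv pv upl pv_cons pv_nil)

/-- the digits are the coefficients of the short list; the other digits are zero -/
def eqS (w h : ℕ) : List Mo → List (Mo × GZ) → ℕ → ℕ → Bool
  | [], l, _, _ => l.isEmpty
  | _ :: ms, [], x, y => (x % w == h) && ((y % w == h) && eqS w h ms [] (x / w) (y / w))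
  | m :: ms, t :: l, x, y =>
    if m = t.1 then
      (decide (((x % w : ℕ) : ℤ) - h = t.2.1)) && ((decide (((y % w : ℕ) : ℤ) - h = t.2.2)) &&
        eqS w h ms l (x / w) (y / w))
    else (x % w == h) && ((y % w == h) && eqS w h ms (t :: l) (x / w) (y / w))

theorem gv_zero' : gv (0, 0) = 0 := by simp [gv]

theorem eqS_pv (φ ψ : ℕ → ℂ) (w h : ℕ) : ∀ (ms : List Mo) (l : List (Mo × GZ)) (x y : ℕ),
    eqS w h ms l x y = true → pv φ ψ (upl w h ms x y) = pv φ ψ l := by
  intro ms
  induction ms with
  | nil =>
    intro l x y hl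
    simp only [eqS, List.isEmpty_iff] at hl
    rw [hl]
    rfl
  | cons m ms ih =>
    intro l x y hl
    have hz : (x % w == h) = true → (y % w == h) = true →
        pv φ ψ (upl w h (m :: ms) x y) = pv φ ψ (upl w h ms (x / w) (y / w)) := by
      intro h1 h2
      rw [beq_iff_eq] at h1 h2
      rw [upl, pv_cons, h1, h2, sub_self, gv_zero', zero_mul, zero_add]
    cases l with
    | nil =>
      simp only [eqS, Bool.and_eq_true] at hl
      rw [hz hl.1 hl.2.1, ih _ _ _ hl.2.2]
    | cons t l =>
      rw [eqS] at hl
      split at hl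
      · rename_i hm
        simp only [Bool.and_eq_true, decide_eq_true_eq] at hl
        rw [upl, pv_cons, pv_cons, ih _ _ _ hl.2.2, hl.1, hl.2.1, hm]
      · simp only [Bool.and_eq_true] at hl
        rw [hz hl.1 hl.2.1, ih _ _ _ hl.2.2]

end Pool.Agent.Helper98.HR2
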