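import Pool.Agent.Helper24.HR2.SmallIds

/-!
MP_16b0ee, project HR2: the region of small exponents (smaller region). The quadratic part of the
test form in the basis of Legendre polynomials: explicit first order approximation.
-/

set_option autoImplicit false

open scoped ComplexConjugate

namespace Pool.Agent.Helper98.HR2

open Pool.Agent.Helper24.HR2
open Pool.Agent.Helper24.HR2.SmallCert (pe pb pe_le gm1 gm2 gm3 gm4 gm5 gm6 gm7 gm8 lG10 lG20 lG11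
  lG21 lG22)

theorem wG10 {s : ℂ} {b : ℝ} (hs : |s.re| ≤ 1 / 250) (hb : 0 ≤ b) (hb1 : b ≤ 2 / 91375) :
    |5/4 * (1 - 6 * Gm s b 1 + 6 * Gm s b 2) - (5/4 * s.re)| ≤ 13/250000 := by
  have gm1 := gm1 s hb
  have gm2 := gm2 s hb
  have key : (5/4 * (1 - 6 * Gm s b 1 + 6 * Gm s b 2) - (5/4 * s.re))
      * ((b + 3) * (b + 4)) = pe lG10 s.re b := by
    simp only [pe, lG10, List.map_cons, List.map_nil, List.sum_cons, List.sum_nil]
    push_cast
    linear_combination (-15/2) * ((b + 4)) * gm1 + (15/2) * gm2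
  have h1 : |pe lG10 s.re b| ≤ ((pb lG10 (1 / 250) (2 / 91375) : ℚ) : ℝ) :=
    pe_le _ (by push_cast; exact hs) (by rw [abs_of_nonneg hb]; push_cast; exact hb1)
  have h2 : pb lG10 (1 / 250) (2 / 91375) ≤ 13/250000 * 12 := by
    norm_num [pb, lG10, abs_of_nonneg, abs_of_neg]
  have h3 : ((pb lG10 (1 / 250) (2 / 91375) : ℚ) : ℝ) ≤ ((13/250000 * 12 : ℚ) : ℝ) :=
    Rat.cast_le.mpr h2
  push_cast at h3
  have hV : (12 : ℝ) ≤ (b + 3) * (b + 4) := by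
    have : (12 : ℝ) = (0 + 3) * (0 + 4) := by norm_num
    rw [this]
    gcongr <;> linarith
  rw [← key, abs_mul] at h1
  have hV0 : (0 : ℝ) < (b + 3) * (b + 4) := lt_of_lt_of_le (by norm_num) hV
  rw [abs_of_pos hV0] at h1
  by_contra hc
  push Not at hc
  have h4 := mul_lt_mul_of_pos_right hc hV0
  have h5 : (13/250000 : ℝ) * 12 ≤ 13/250000 * ((b + 3) * (b + 4)) := mul_le_mul_of_nonneg_left hV (by norm_num)
  linarith

theorem wG20 {s : ℂ} {b : ℝ} (hs : |s.re| ≤ 1 / 250) (hb : 0 ≤ b) (hb1 : b ≤ 2 / 91375) :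
    |9/4 * (1 - 20 * Gm s b 1 + 90 * Gm s b 2 - 140 * Gm s b 3 + 70 * Gm s b 4) - (1/2 * s.re)| ≤ 1/20000 := by
  have gm1 := gm1 s hb
  have gm2 := gm2 s hb
  have gm3 := gm3 s hb
  have gm4 := gm4 s hb
  have key : (9/4 * (1 - 20 * Gm s b 1 + 90 * Gm s b 2 - 140 * Gm s b 3 + 70 * Gm s b 4) - (1/2 * s.re))
      * ((b + 3) * (b + 4) * (b + 5) * (b + 6)) = pe lG20 s.re b := by
    simp only [pe, lG20, List.map_cons, List.map_nil, List.sum_cons, List.sum_nil]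
    push_cast
    linear_combination (-45) * ((b + 4) * (b + 5) * (b + 6)) * gm1 + (405/2) * ((b + 5) * (b + 6)) * gm2 + (-315) * ((b + 6)) * gm3 + (315/2) * gm4
  have h1 : |pe lG20 s.re b| ≤ ((pb lG20 (1 / 250) (2 / 91375) : ℚ) : ℝ) :=
    pe_le _ (by push_cast; exact hs) (by rw [abs_of_nonneg hb]; push_cast; exact hb1)
  have h2 : pb lG20 (1 / 250) (2 / 91375) ≤ 1/20000 * 360 := by
    norm_num [pb, lG20, abs_of_nonneg, abs_of_neg]
  have h3 : ((pb lG20 (1 / 250) (2 / 91375) : ℚ) : ℝ) ≤ ((1/20000 * 360 : ℚ) : ℝ) :=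
    Rat.cast_le.mpr h2
  push_cast at h3
  have hV : (360 : ℝ) ≤ (b + 3) * (b + 4) * (b + 5) * (b + 6) := by
    have : (360 : ℝ) = (0 + 3) * (0 + 4) * (0 + 5) * (0 + 6) := by norm_num
    rw [this]
    gcongr <;> linarith
  rw [← key, abs_mul] at h1
  have hV0 : (0 : ℝ) < (b + 3) * (b + 4) * (b + 5) * (b + 6) := lt_of_lt_of_le (by norm_num) hV
  rw [abs_of_pos hV0] at h1
  by_contra hc
  push Not at hc
  have h4 := mul_lt_mul_of_pos_right hc hV0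
  have h5 : (1/20000 : ℝ) * 360 ≤ 1/20000 * ((b + 3) * (b + 4) * (b + 5) * (b + 6)) := mul_le_mul_of_nonneg_left hV (by norm_num)
  linarith

theorem wG11 {s : ℂ} {b : ℝ} (hs : |s.re| ≤ 1 / 250) (hb : 0 ≤ b) (hb1 : b ≤ 2 / 91375) :
    |25/4 * (1 - 12 * Gm s b 1 + 48 * Gm s b 2 - 72 * Gm s b 3 + 36 * Gm s b 4) - (5/4 + 5/2 * s.re)| ≤ 29/200000 := by
  have gm1 := gm1 s hb
  have gm2 := gm2 s hb
  have gm3 := gm3 s hb
  have gm4 := gm4 s hb
  have key : (25/4 * (1 - 12 * Gm s b 1 + 48 * Gm s b 2 - 72 * Gm s b 3 + 36 * Gm s b 4) - (5/4 + 5/2 * s.re))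
      * ((b + 3) * (b + 4) * (b + 5) * (b + 6)) = pe lG11 s.re b := by
    simp only [pe, lG11, List.map_cons, List.map_nil, List.sum_cons, List.sum_nil]
    push_cast
    linear_combination (-75) * ((b + 4) * (b + 5) * (b + 6)) * gm1 + (300) * ((b + 5) * (b + 6)) * gm2 + (-450) * ((b + 6)) * gm3 + (225) * gm4
  have h1 : |pe lG11 s.re b| ≤ ((pb lG11 (1 / 250) (2 / 91375) : ℚ) : ℝ) :=
    pe_le _ (by push_cast; exact hs) (by rw [abs_of_nonneg hb]; push_cast; exact hb1)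
  have h2 : pb lG11 (1 / 250) (2 / 91375) ≤ 29/200000 * 360 := by
    norm_num [pb, lG11, abs_of_nonneg, abs_of_neg]
  have h3 : ((pb lG11 (1 / 250) (2 / 91375) : ℚ) : ℝ) ≤ ((29/200000 * 360 : ℚ) : ℝ) :=
    Rat.cast_le.mpr h2
  push_cast at h3
  have hV : (360 : ℝ) ≤ (b + 3) * (b + 4) * (b + 5) * (b + 6) := by
    have : (360 : ℝ) = (0 + 3) * (0 + 4) * (0 + 5) * (0 + 6) := by norm_num
    rw [this]
    gcongr <;> linarith
  rw [← key, abs_mul] at h1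
  have hV0 : (0 : ℝ) < (b + 3) * (b + 4) * (b + 5) * (b + 6) := lt_of_lt_of_le (by norm_num) hV
  rw [abs_of_pos hV0] at h1
  by_contra hc
  push Not at hc
  have h4 := mul_lt_mul_of_pos_right hc hV0
  have h5 : (29/200000 : ℝ) * 360 ≤ 29/200000 * ((b + 3) * (b + 4) * (b + 5) * (b + 6)) := mul_le_mul_of_nonneg_left hV (by norm_num)
  linarith

theorem wG21 {s : ℂ} {b : ℝ} (hs : |s.re| ≤ 1 / 250) (hb : 0 ≤ b) (hb1 : b ≤ 2 / 91375) :
    |45/4 * (1 - 26 * Gm s b 1 + 216 * Gm s b 2 - 800 * Gm s b 3 + 1450 * Gm s b 4 - 1260 * Gm s b 5 + 420 * Gm s b 6) - (35/8 * s.re)| ≤ 53/200000 := by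
  have gm1 := gm1 s hb
  have gm2 := gm2 s hb
  have gm3 := gm3 s hb
  have gm4 := gm4 s hb
  have gm5 := gm5 s hb
  have gm6 := gm6 s hb
  have key : (45/4 * (1 - 26 * Gm s b 1 + 216 * Gm s b 2 - 800 * Gm s b 3 + 1450 * Gm s b 4 - 1260 * Gm s b 5 + 420 * Gm s b 6) - (35/8 * s.re))
      * ((b + 3) * (b + 4) * (b + 5) * (b + 6) * (b + 7) * (b + 8)) = pe lG21 s.re b := by
    simp only [pe, lG21, List.map_cons, List.map_nil, List.sum_cons, List.sum_nil]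
    push_cast
    linear_combination (-585/2) * ((b + 4) * (b + 5) * (b + 6) * (b + 7) * (b + 8)) * gm1 + (2430) * ((b + 5) * (b + 6) * (b + 7) * (b + 8)) * gm2 + (-9000) * ((b + 6) * (b + 7) * (b + 8)) * gm3 + (32625/2) * ((b + 7) * (b + 8)) * gm4 + (-14175) * ((b + 8)) * gm5 + (4725) * gm6
  have h1 : |pe lG21 s.re b| ≤ ((pb lG21 (1 / 250) (2 / 91375) : ℚ) : ℝ) :=
    pe_le _ (by push_cast; exact hs) (by rw [abs_of_nonneg hb]; push_cast; exact hb1)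
  have h2 : pb lG21 (1 / 250) (2 / 91375) ≤ 53/200000 * 20160 := by
    norm_num [pb, lG21, abs_of_nonneg, abs_of_neg]
  have h3 : ((pb lG21 (1 / 250) (2 / 91375) : ℚ) : ℝ) ≤ ((53/200000 * 20160 : ℚ) : ℝ) :=
    Rat.cast_le.mpr h2
  push_cast at h3
  have hV : (20160 : ℝ) ≤ (b + 3) * (b + 4) * (b + 5) * (b + 6) * (b + 7) * (b + 8) := by
    have : (20160 : ℝ) = (0 + 3) * (0 + 4) * (0 + 5) * (0 + 6) * (0 + 7) * (0 + 8) := by norm_num
    rw [this]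
    gcongr <;> linarith
  rw [← key, abs_mul] at h1
  have hV0 : (0 : ℝ) < (b + 3) * (b + 4) * (b + 5) * (b + 6) * (b + 7) * (b + 8) := lt_of_lt_of_le (by norm_num) hV
  rw [abs_of_pos hV0] at h1
  by_contra hc
  push Not at hc
  have h4 := mul_lt_mul_of_pos_right hc hV0
  have h5 : (53/200000 : ℝ) * 20160 ≤ 53/200000 * ((b + 3) * (b + 4) * (b + 5) * (b + 6) * (b + 7) * (b + 8)) := mul_le_mul_of_nonneg_left hV (by norm_num)
  linarith

theorem wG22 {s : ℂ} {b : ℝ} (hs : |s.re| ≤ 1 / 250) (hb : 0 ≤ b) (hb1 : b ≤ 2 / 91375) :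
    |81/4 * (1 - 40 * Gm s b 1 + 580 * Gm s b 2 - 3880 * Gm s b 3 + 13840 * Gm s b 4 - 28000 * Gm s b 5 + 32200 * Gm s b 6 - 19600 * Gm s b 7 + 4900 * Gm s b 8) - (9/4 + 9/2 * s.re)| ≤ 313/1000000 := by
  have gm1 := gm1 s hb
  have gm2 := gm2 s hb
  have gm3 := gm3 s hb
  have gm4 := gm4 s hb
  have gm5 := gm5 s hb
  have gm6 := gm6 s hb
  have gm7 := gm7 s hb
  have gm8 := gm8 s hb
  have key : (81/4 * (1 - 40 * Gm s b 1 + 580 * Gm s b 2 - 3880 * Gm s b 3 + 13840 * Gm s b 4 - 28000 * Gm s b 5 + 32200 * Gm s b 6 - 19600 * Gm s b 7 + 4900 * Gm s b 8) - (9/4 + 9/2 * s.re))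
      * ((b + 3) * (b + 4) * (b + 5) * (b + 6) * (b + 7) * (b + 8) * (b + 9) * (b + 10)) = pe lG22 s.re b := by
    simp only [pe, lG22, List.map_cons, List.map_nil, List.sum_cons, List.sum_nil]
    push_cast
    linear_combination (-810) * ((b + 4) * (b + 5) * (b + 6) * (b + 7) * (b + 8) * (b + 9) * (b + 10)) * gm1 + (11745) * ((b + 5) * (b + 6) * (b + 7) * (b + 8) * (b + 9) * (b + 10)) * gm2 + (-78570) * ((b + 6) * (b + 7) * (b + 8) * (b + 9) * (b + 10)) * gm3 + (280260) * ((b + 7) * (b + 8) * (b + 9) * (b + 10)) * gm4 + (-567000) * ((b + 8) * (b + 9) * (b + 10)) * gm5 + (652050) * ((b + 9) * (b + 10)) * gm6 + (-396900) * ((b + 10)) * gm7 + (99225) * gm8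
  have h1 : |pe lG22 s.re b| ≤ ((pb lG22 (1 / 250) (2 / 91375) : ℚ) : ℝ) :=
    pe_le _ (by push_cast; exact hs) (by rw [abs_of_nonneg hb]; push_cast; exact hb1)
  have h2 : pb lG22 (1 / 250) (2 / 91375) ≤ 313/1000000 * 1814400 := by
    norm_num [pb, lG22, abs_of_nonneg, abs_of_neg]
  have h3 : ((pb lG22 (1 / 250) (2 / 91375) : ℚ) : ℝ) ≤ ((313/1000000 * 1814400 : ℚ) : ℝ) :=
    Rat.cast_le.mpr h2
  push_cast at h3
  have hV : (1814400 : ℝ) ≤ (b + 3) * (b + 4) * (b + 5) * (b + 6) * (b + 7) * (b + 8) * (b + 9) * (b + 10) := by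
    have : (1814400 : ℝ) = (0 + 3) * (0 + 4) * (0 + 5) * (0 + 6) * (0 + 7) * (0 + 8) * (0 + 9) * (0 + 10) := by norm_num
    rw [this]
    gcongr <;> linarith
  rw [← key, abs_mul] at h1
  have hV0 : (0 : ℝ) < (b + 3) * (b + 4) * (b + 5) * (b + 6) * (b + 7) * (b + 8) * (b + 9) * (b + 10) := lt_of_lt_of_le (by norm_num) hV
  rw [abs_of_pos hV0] at h1
  by_contra hc
  push Not at hc
  have h4 := mul_lt_mul_of_pos_right hc hV0
  have h5 : (313/1000000 : ℝ) * 1814400 ≤ 313/1000000 * ((b + 3) * (b + 4) * (b + 5) * (b + 6) * (b + 7) * (b + 8) * (b + 9) * (b + 10)) := mul_le_mul_of_nonneg_left hV (by norm_num)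
  linarith

end Pool.Agent.Helper98.HR2
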