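import Mathlib
import Pool.Agent.Helper98.HR2.SmCert
import Pool.Agent.Helper24.HR2.MeanOf
import Pool.Agent.Helper12.HR2.Cover

/-!
MP_16b0ee, project HR2: the region of small exponents (`|s| ≤ 1 / 250`, constant `731 / 1000`), the
bound of the exponential means.
-/

set_option autoImplicit false

open MeasureTheory Set Metric Filter Topology
open scoped Real ComplexConjugate

namespace Pool.Agent.Helper98.HR2

open Pool.Agent.Helper22.Half
open Pool.Agent.Helper12.HR2 (mE)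
open Pool.Agent.Helper24.HR2 (Dat LS mean_of_LS mS)

/-- from the area integrals to the means, uniformly in the exponents of a disc -/
theorem small_mean_ofA {a s0 : ℝ} (ha : 0 < a) (h : ∃ C : ℝ, ∀ s : ℂ, s ≠ 0 → ‖s‖ ≤ s0 →
    ∀ (ρ : ℝ) (β H : ℂ → ℂ) (Φ : ℂ → ℂ → ℂ), Dat ρ β H Φ →
      ‖s‖ ^ 2 / a * LS s H (‖s‖ ^ 2 / a) (fun _ => 1) ≤ C) :
    ∃ C : ℝ, ∀ s : ℂ, ‖s‖ ≤ s0 → ∀ ψ h : ℂ → ℂ, SigmaLog ψ h → ∀ R : ℝ, 1 < R →
      mE s R h ≤ C * (R ^ 2 / (R ^ 2 - 1)) ^ (‖s‖ ^ 2 / a) := by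
  obtain ⟨C, hC⟩ := h
  refine ⟨max C 1, ?_⟩
  intro s hs ψ h hψ R hR
  have hR2 : 0 < R ^ 2 - 1 := by nlinarith
  have hbase : 0 < R ^ 2 / (R ^ 2 - 1) := by positivity
  by_cases h0 : s = 0
  · subst h0
    unfold mE
    simp only [zero_mul, Complex.exp_zero, norm_one, one_pow, norm_zero, ne_eq, OfNat.ofNat_ne_zero,
      not_false_eq_true, zero_pow, zero_div, Real.rpow_zero, mul_one,
      intervalIntegral.integral_const, smul_eq_mul, sub_zero]
    have hpi := Real.pi_pos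
    have : 1 / (2 * π) * (2 * π) = 1 := by field_simp
    rw [this]
    exact le_max_right _ _
  · have hn : 0 < ‖s‖ := norm_pos_iff.mpr h0
    have hb : 0 < ‖s‖ ^ 2 / a := by positivity
    have h1 := mean_of_LS (C := C / (‖s‖ ^ 2 / a)) hb (fun ρ β H Φ hD => by
      rw [le_div_iff₀ hb, mul_comm]
      exact hC s h0 hs ρ β H Φ hD) ψ h hψ R hR
    have h2 : mE s R h = mS s R h := rfl
    rw [h2]
    refine h1.trans ?_
    rw [mul_div_cancel₀ C hb.ne']
    exact mul_le_mul_of_nonneg_right (le_max_left _ _) (by positivity)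

/-- **The uniform bound of the means near the exponent zero.** -/
theorem small_meanA : ∃ C : ℝ, ∀ s : ℂ, ‖s‖ ≤ 1 / 250 → ∀ ψ h : ℂ → ℂ, SigmaLog ψ h →
    ∀ R : ℝ, 1 < R → mE s R h ≤ C * (R ^ 2 / (R ^ 2 - 1)) ^ (‖s‖ ^ 2 / (731 / 1000)) :=
  small_mean_ofA (by norm_num) small_certA

end Pool.Agent.Helper98.HR2
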